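import Pool.Agent.W482.LR.Stm

/-!
# Blocks for `m` orders (task LR-ORD, helper193)
-/

set_option autoImplicit false

namespace Pool.Agent.W193.LR

open Finset Pool.Agent.W482.LR

/-- all of `X` before all of `Y` -/
def Bef {R : Type} (f : R → ℕ) (X Y : Finset R) : Prop := ∀ x ∈ X, ∀ y ∈ Y, f x < f y

theorem Bef.mono {R : Type} {f : R → ℕ} {X Y X' Y' : Finset R} (h : Bef f X Y) (hX : X' ⊆ X)
    (hY : Y' ⊆ Y) : Bef f X' Y' := fun x hx y hy => h x (hX hx) y (hY hy)

variable {R : Type} [DecidableEq R]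

theorem init {f : R → ℕ} (hf : Function.Injective f) (S : Finset R) (T : ℕ) (hT : T ≤ S.card) :
    ∃ I : Finset R, I ⊆ S ∧ I.card = T ∧ Bef f I (S \ I) := by
  induction T with
  | zero => exact ⟨∅, empty_subset _, card_empty, fun x hx => absurd hx (notMem_empty x)⟩
  | succ T ih =>
    obtain ⟨I, hI, hIc, hb⟩ := ih (by omega)
    have hne : (S \ I).Nonempty := by
      rw [← card_pos, card_sdiff_of_subset hI]
      omega
    obtain ⟨a, ha, hmin⟩ := exists_min_image (S \ I) f hne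
    have ha' := mem_sdiff.1 ha
    refine ⟨insert a I, insert_subset ha'.1 hI, by rw [card_insert_of_notMem ha'.2, hIc], ?_⟩
    intro x hx y hy
    rw [mem_sdiff, mem_insert, not_or] at hy
    have hy' : y ∈ S \ I := mem_sdiff.2 ⟨hy.1, hy.2.2⟩
    rcases mem_insert.1 hx with h | h
    · rw [h]
      exact lt_of_le_of_ne (hmin y hy') fun h => hy.2.1 (hf h).symm
    · exact hb x h y hy'

theorem final {f : R → ℕ} (hf : Function.Injective f) (S : Finset R) (T : ℕ) (hT : T ≤ S.card) :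
    ∃ I : Finset R, I ⊆ S ∧ I.card = T ∧ Bef f (S \ I) I := by
  obtain ⟨J, hJ, hJc, hb⟩ := init hf S (S.card - T) (by omega)
  refine ⟨S \ J, sdiff_subset, by rw [card_sdiff_of_subset hJ]; omega, ?_⟩
  rw [Finset.sdiff_sdiff_eq_self hJ]
  exact hb

theorem intervals {f : R → ℕ} (hf : Function.Injective f) (T K : ℕ) : ∀ S : Finset R,
    K * T ≤ S.card → ∃ I : ℕ → Finset R, (∀ a < K, I a ⊆ S ∧ (I a).card = T) ∧
      ∀ b < K, ∀ a < b, Bef f (I a) (I b) := by
  induction K with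
  | zero => exact fun S _ => ⟨fun _ => ∅, fun a ha => by omega, fun b hb => by omega⟩
  | succ K ih =>
    intro S hS
    have h1 : (K + 1) * T = K * T + T := by ring
    obtain ⟨I0, h0, h0c, h0b⟩ := init hf S T (by
      have := Nat.zero_le (K * T)
      omega)
    obtain ⟨I', hI', hb'⟩ := ih (S \ I0) (by rw [card_sdiff_of_subset h0]; omega)
    refine ⟨fun a => if a = 0 then I0 else I' (a - 1), ?_, ?_⟩
    · intro a ha
      by_cases h : a = 0
      · simp only [h, if_true]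
        exact ⟨h0, h0c⟩
      · simp only [h, if_false]
        have := hI' (a - 1) (by omega)
        exact ⟨this.1.trans sdiff_subset, this.2⟩
    · intro b hb a hab
      have hb0 : b ≠ 0 := by omega
      simp only [hb0, if_false]
      by_cases h : a = 0
      · simp only [h, if_true]
        exact h0b.mono (Subset.refl _) (hI' (b - 1) (by omega)).1
      · simp only [h, if_false]
        exact hb' (b - 1) (by omega) (a - 1) (by omega)

theorem refine1 {f : R → ℕ} (hf : Function.Injective f) (X Y : Finset R) (M : ℕ)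
    (hX : 2 * M ≤ X.card) (hY : 2 * M ≤ Y.card) : ∃ X' Y' : Finset R, X' ⊆ X ∧ Y' ⊆ Y ∧
      M ≤ X'.card ∧ M ≤ Y'.card ∧ (Bef f X' Y' ∨ Bef f Y' X') := by
  obtain ⟨X1, hX1, hX1c, hX1b⟩ := init hf X M (by omega)
  obtain ⟨Y1, hY1, hY1c, hY1b⟩ := init hf Y M (by omega)
  have cX : M ≤ (X \ X1).card := by rw [card_sdiff_of_subset hX1]; omega
  have cY : M ≤ (Y \ Y1).card := by rw [card_sdiff_of_subset hY1]; omega
  by_cases h : ∃ y ∈ Y1, ∀ x ∈ X1, f x < f y
  · obtain ⟨y, hy, hyx⟩ := h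
    exact ⟨X1, Y \ Y1, hX1, sdiff_subset, hX1c.ge, cY, Or.inl fun x hx z hz =>
      (hyx x hx).trans (hY1b y hy z hz)⟩
  · push Not at h
    refine ⟨X \ X1, Y1, sdiff_subset, hY1, cX, hY1c.ge, Or.inr fun y hy z hz => ?_⟩
    obtain ⟨x, hx, hyx⟩ := h y hy
    exact lt_of_le_of_lt hyx (hX1b x hx z hz)

theorem refineAll {κ : Type} [DecidableEq κ] (π : κ → R → ℕ) (M : ℕ) (Q : Finset κ) :
    (∀ q ∈ Q, Function.Injective (π q)) → ∀ X Y : Finset R, 2 ^ Q.card * M ≤ X.card →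
      2 ^ Q.card * M ≤ Y.card → ∃ X' Y' : Finset R, X' ⊆ X ∧ Y' ⊆ Y ∧ M ≤ X'.card ∧ M ≤ Y'.card ∧
        ∀ q ∈ Q, Bef (π q) X' Y' ∨ Bef (π q) Y' X' := by
  induction Q using Finset.induction_on with
  | empty =>
    intro _ X Y hX hY
    rw [card_empty, pow_zero, one_mul] at hX hY
    exact ⟨X, Y, Subset.refl _, Subset.refl _, hX, hY, fun q hq => absurd hq (notMem_empty q)⟩
  | insert q Q hq ih =>
    intro hinj X Y hX hY
    rw [card_insert_of_notMem hq, pow_succ, mul_comm _ 2, mul_assoc] at hX hY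
    obtain ⟨X1, Y1, hX1, hY1, cX, cY, hb⟩ := refine1 (hinj q (mem_insert_self _ _)) X Y _ hX hY
    obtain ⟨X2, Y2, hX2, hY2, cX2, cY2, hb2⟩ :=
      ih (fun q' hq' => hinj q' (mem_insert_of_mem hq')) X1 Y1 cX cY
    refine ⟨X2, Y2, hX2.trans hX1, hY2.trans hY1, cX2, cY2, ?_⟩
    intro q' hq'
    rcases mem_insert.1 hq' with h | h
    · rw [h]
      rcases hb with hb | hb
      · exact Or.inl (hb.mono hX2 hY2)
      · exact Or.inr (hb.mono hY2 hX2)
    · exact hb2 q' h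

theorem need_pos {w K : ℕ} (hw : 1 ≤ w) (hK : 1 ≤ K) (m : ℕ) : w ≤ need w K m := by
  unfold need
  have h1 : 1 ≤ 8 ^ (m * (m - 1)) := Nat.one_le_pow _ _ (by norm_num)
  have h2 : 1 ≤ K ^ m := Nat.one_le_pow _ _ hK
  calc w = w * 1 * 1 := by ring
    _ ≤ w * 8 ^ (m * (m - 1)) * K ^ m := by gcongr

theorem need_mono {w K : ℕ} (hK : 1 ≤ K) {m n : ℕ} (h : m ≤ n) : need w K m ≤ need w K n := by
  unfold need
  have h1 : m * (m - 1) ≤ n * (n - 1) := Nat.mul_le_mul h (by omega)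
  have h2 : 8 ^ (m * (m - 1)) ≤ 8 ^ (n * (n - 1)) := Nat.pow_le_pow_right (by norm_num) h1
  have h3 : K ^ m ≤ K ^ n := Nat.pow_le_pow_right hK h
  gcongr

theorem num (m : ℕ) : (m + 2) * 2 ^ (m + 3) + 1 ≤ 64 ^ (m + 1) := by
  induction m with
  | zero => norm_num
  | succ m ih =>
    have h1 : 1 ≤ 2 ^ (m + 3) := Nat.one_le_pow _ _ (by norm_num)
    have e1 : (m + 1 + 2) * 2 ^ (m + 1 + 3) = 2 * ((m + 2) * 2 ^ (m + 3)) + 2 * 2 ^ (m + 3) := by
      ring
    have e2 : 64 ^ (m + 1 + 1) = 64 * 64 ^ (m + 1) := by ring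
    have h2 : 2 ^ (m + 3) ≤ (m + 2) * 2 ^ (m + 3) := Nat.le_mul_of_pos_left _ (by omega)
    omega

theorem need_step {w K : ℕ} (hw : 1 ≤ w) (hK : 1 ≤ K) (m : ℕ) :
    K * (2 * (2 ^ (m + 2) * need w K (m + 1)) * (m + 2) + w) ≤ need w K (m + 2) := by
  have h1 := need_pos hw hK (m + 1)
  have h2 := num m
  have e : need w K (m + 2) = K * (need w K (m + 1) * 64 ^ (m + 1)) := by
    unfold need
    have e1 : (m + 2) * (m + 2 - 1) = (m + 1) * (m + 1 - 1) + 2 * (m + 1) := by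
      simp only [Nat.add_sub_cancel]
      rw [show m + 2 - 1 = m + 1 by omega]
      ring
    rw [e1, pow_add, pow_mul 8 2 (m + 1)]
    norm_num
    ring
  rw [e]
  refine Nat.mul_le_mul_left _ ?_
  calc 2 * (2 ^ (m + 2) * need w K (m + 1)) * (m + 2) + w
      ≤ 2 * (2 ^ (m + 2) * need w K (m + 1)) * (m + 2) + need w K (m + 1) := by omega
    _ = need w K (m + 1) * ((m + 2) * 2 ^ (m + 3) + 1) := by ring
    _ ≤ need w K (m + 1) * 64 ^ (m + 1) := Nat.mul_le_mul_left _ h2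

/-- the conclusion -/
def Good {κ : Type} (π : κ → R → ℕ) (w K : ℕ) (Q : Finset κ) (S : Finset R) : Prop :=
  ∃ (cl : κ → κ) (B : κ → ℕ → Finset R),
      (∀ q ∈ Q, cl q ∈ Q) ∧
      (∀ q ∈ Q, ∀ i < K, B (cl q) i ⊆ S ∧ (B (cl q) i).card = w) ∧
      (∀ q ∈ Q, ∀ i < K, ∀ i' < K, i < i' → ∀ x ∈ B (cl q) i, ∀ y ∈ B (cl q) i', π q x < π q y) ∧
      (∀ q ∈ Q, ∀ q' ∈ Q, cl q' ≠ cl q → ∀ i < K, ∀ i' < K,
        ∀ x ∈ B (cl q) i, ∀ y ∈ B (cl q') i', π q x < π q y)

theorem caseA {κ : Type} [DecidableEq κ] (π : κ → R → ℕ) (w K : ℕ) (Q Q1 : Finset κ)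
    (S X Y : Finset R) (hQ1 : Q1 ⊆ Q) (hX : X ⊆ S) (hY : Y ⊆ S)
    (h1 : ∀ q ∈ Q1, Bef (π q) X Y) (h2 : ∀ q ∈ Q, q ∉ Q1 → Bef (π q) Y X)
    (g1 : Good π w K Q1 X) (g2 : Good π w K (Q \ Q1) Y) : Good π w K Q S := by
  obtain ⟨cl1, B1, a1, b1, c1, d1⟩ := g1
  obtain ⟨cl2, B2, a2, b2, c2, d2⟩ := g2
  obtain ⟨cl, hcl⟩ : ∃ cl : κ → κ, cl = fun q => if q ∈ Q1 then cl1 q else cl2 q := ⟨_, rfl⟩
  obtain ⟨B, hB⟩ : ∃ B : κ → ℕ → Finset R, B = fun j => if j ∈ Q1 then B1 j else B2 j := ⟨_, rfl⟩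
  have e1 : ∀ q ∈ Q1, cl q = cl1 q ∧ B (cl q) = B1 (cl1 q) := by
    intro q hq
    have : cl q = cl1 q := by rw [hcl]; exact if_pos hq
    refine ⟨this, ?_⟩
    rw [this, hB]
    exact if_pos (a1 q hq)
  have e2 : ∀ q ∈ Q, q ∉ Q1 → cl q = cl2 q ∧ B (cl q) = B2 (cl2 q) := by
    intro q hq hq1
    have : cl q = cl2 q := by rw [hcl]; exact if_neg hq1
    refine ⟨this, ?_⟩
    rw [this, hB]
    exact if_neg (mem_sdiff.1 (a2 q (mem_sdiff.2 ⟨hq, hq1⟩))).2
  refine ⟨cl, B, ?_, ?_, ?_, ?_⟩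
  · intro q hq
    by_cases h : q ∈ Q1
    · rw [(e1 q h).1]
      exact hQ1 (a1 q h)
    · rw [(e2 q hq h).1]
      exact (mem_sdiff.1 (a2 q (mem_sdiff.2 ⟨hq, h⟩))).1
  · intro q hq i hi
    by_cases h : q ∈ Q1
    · rw [(e1 q h).2]
      exact ⟨(b1 q h i hi).1.trans hX, (b1 q h i hi).2⟩
    · rw [(e2 q hq h).2]
      have := b2 q (mem_sdiff.2 ⟨hq, h⟩) i hi
      exact ⟨this.1.trans hY, this.2⟩
  · intro q hq i hi i' hi' hii
    by_cases h : q ∈ Q1
    · rw [(e1 q h).2]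
      exact c1 q h i hi i' hi' hii
    · rw [(e2 q hq h).2]
      exact c2 q (mem_sdiff.2 ⟨hq, h⟩) i hi i' hi' hii
  · intro q hq q' hq' hne i hi i' hi' x hx y hy
    by_cases h : q ∈ Q1 <;> by_cases h' : q' ∈ Q1
    · rw [(e1 q h).2] at hx
      rw [(e1 q' h').2] at hy
      rw [(e1 q h).1, (e1 q' h').1] at hne
      exact d1 q h q' h' hne i hi i' hi' x hx y hy
    · rw [(e1 q h).2] at hx
      rw [(e2 q' hq' h').2] at hy
      exact h1 q h x ((b1 q h i hi).1 hx) y ((b2 q' (mem_sdiff.2 ⟨hq', h'⟩) i' hi').1 hy)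
    · rw [(e2 q hq h).2] at hx
      rw [(e1 q' h').2] at hy
      exact h2 q hq h x ((b2 q (mem_sdiff.2 ⟨hq, h⟩) i hi).1 hx) y ((b1 q' h' i' hi').1 hy)
    · rw [(e2 q hq h).2] at hx
      rw [(e2 q' hq' h').2] at hy
      rw [(e2 q hq h).1, (e2 q' hq' h').1] at hne
      exact d2 q (mem_sdiff.2 ⟨hq, h⟩) q' (mem_sdiff.2 ⟨hq', h'⟩) hne i hi i' hi' x hx y hy

theorem main {κ : Type} [DecidableEq κ] (π : κ → R → ℕ) (w K : ℕ) (hw : 1 ≤ w) (hK : 1 ≤ K)
    (m : ℕ) : ∀ (Q : Finset κ) (S : Finset R), Q.Nonempty → (∀ q ∈ Q, Function.Injective (π q)) →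
      Q.card = m → need w K m ≤ S.card → Good π w K Q S := by
  induction m using Nat.strong_induction_on with
  | _ m ih =>
    intro Q S hQ hinj hm hS
    obtain ⟨q0, hq0⟩ := hQ
    have hm1 : 1 ≤ m := by
      rw [← hm]
      exact card_pos.2 ⟨q0, hq0⟩
    rcases Nat.eq_or_lt_of_le hm1 with h1 | h1
    · -- one order
      have hN : K * w ≤ S.card := by
        rw [← h1] at hS
        unfold need at hS
        simp only [Nat.sub_self, Nat.mul_zero, pow_zero, mul_one, pow_one] at hS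
        rw [mul_comm]
        exact hS
      obtain ⟨I, hI, hIb⟩ := intervals (hinj q0 hq0) w K S hN
      obtain ⟨q1, hq1⟩ := card_eq_one.1 (hm.trans h1.symm)
      have hqq : ∀ q ∈ Q, q = q0 := by
        intro q hq
        rw [hq1, mem_singleton] at hq hq0
        rw [hq, hq0]
      refine ⟨fun _ => q0, fun _ => I, fun q hq => hq0, fun q _ i hi => hI i hi, ?_, ?_⟩
      · intro q hq i hi i' hi' hii
        rw [hqq q hq]
        exact hIb i' hi' i hii
      · intro q _ q' _ hne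
        exact absurd rfl hne
    · obtain ⟨k, rfl⟩ : ∃ k, m = k + 2 := ⟨m - 2, by omega⟩
      obtain ⟨N', hN'⟩ : ∃ N', N' = need w K (k + 1) := ⟨_, rfl⟩
      obtain ⟨s, hs⟩ : ∃ s, s = 2 ^ (k + 2) * N' := ⟨_, rfl⟩
      have hN'w : w ≤ N' := hN' ▸ need_pos hw hK (k + 1)
      have hstep := need_step hw hK k
      rw [← hN', ← hs] at hstep
      obtain ⟨I, hI, hIb⟩ := intervals (hinj q0 hq0) (2 * s * (k + 2) + w) K S (hstep.trans hS)
      by_cases hA : ∃ a b : ℕ, a < b ∧ b < K ∧ ∃ q ∈ Q, ∃ X Y : Finset R, X ⊆ I a ∧ Y ⊆ I b ∧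
          X.card = s ∧ Y.card = s ∧ Bef (π q) Y X
      · obtain ⟨a, b, hab, hbK, q, hq, X, Y, hX, hY, hXc, hYc, hYX⟩ := hA
        obtain ⟨X', Y', hX', hY', cX, cY, hXY⟩ := refineAll π N' Q hinj X Y
          (by rw [hm, hXc, hs]) (by rw [hm, hYc, hs])
        classical
        obtain ⟨Q1, hQ1⟩ : ∃ Q1 : Finset κ, Q1 = Q.filter fun q' => Bef (π q') X' Y' := ⟨_, rfl⟩
        have hQ1s : Q1 ⊆ Q := by rw [hQ1]; exact filter_subset _ _
        have h0 : q0 ∈ Q1 := by
          rw [hQ1, mem_filter]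
          exact ⟨hq0, (hIb b hbK a hab).mono (hX'.trans hX) (hY'.trans hY)⟩
        have hqn : q ∉ Q1 := by
          rw [hQ1, mem_filter]
          rintro ⟨-, h⟩
          obtain ⟨x, hx⟩ := card_pos.1 (show 0 < X'.card by omega)
          obtain ⟨y, hy⟩ := card_pos.1 (show 0 < Y'.card by omega)
          have h3 := h x hx y hy
          have h4 := hYX y (hY' hy) x (hX' hx)
          omega
        have hc : (Q \ Q1).card + Q1.card = k + 2 := by
          rw [card_sdiff_add_card_eq_card hQ1s, hm]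
        have hc1 : 0 < Q1.card := card_pos.2 ⟨q0, h0⟩
        have hc2 : 0 < (Q \ Q1).card := card_pos.2 ⟨q, mem_sdiff.2 ⟨hq, hqn⟩⟩
        refine caseA π w K Q Q1 S X' Y' hQ1s
          (hX'.trans (hX.trans (hI a (hab.trans hbK)).1)) (hY'.trans (hY.trans (hI b hbK).1)) ?_ ?_ ?_ ?_
        · intro q' hq'
          rw [hQ1, mem_filter] at hq'
          exact hq'.2
        · intro q' hq' hn
          rcases hXY q' hq' with h | h
          · exact absurd (by rw [hQ1, mem_filter]; exact ⟨hq', h⟩) hn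
          · exact h
        · refine ih Q1.card (by omega) Q1 X' ⟨q0, h0⟩ (fun q' h => hinj q' (hQ1s h)) rfl ?_
          refine (need_mono hK (show Q1.card ≤ k + 1 by omega)).trans ?_
          rw [← hN']
          exact cX
        · refine ih (Q \ Q1).card (by omega) (Q \ Q1) Y' ⟨q, mem_sdiff.2 ⟨hq, hqn⟩⟩
            (fun q' h => hinj q' (mem_sdiff.1 h).1) rfl ?_
          refine (need_mono hK (show (Q \ Q1).card ≤ k + 1 by omega)).trans ?_
          rw [← hN']
          exact cY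
      · -- no inversion
        have hsT : s ≤ 2 * s * (k + 2) + w := by
          have : s * 1 ≤ s * (2 * (k + 2)) := Nat.mul_le_mul_left _ (by omega)
          have e : 2 * s * (k + 2) = s * (2 * (k + 2)) := by ring
          omega
        have hF : ∀ q a, ∃ F : Finset R, q ∈ Q → a < K → F ⊆ I a ∧ F.card = s ∧
            Bef (π q) F (I a \ F) := by
          intro q a
          by_cases h : q ∈ Q ∧ a < K
          · obtain ⟨F, h1, h2, h3⟩ := init (hinj q h.1) (I a) s (by rw [(hI a h.2).2]; exact hsT)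
            exact ⟨F, fun _ _ => ⟨h1, h2, h3⟩⟩
          · exact ⟨∅, fun h1 h2 => absurd ⟨h1, h2⟩ h⟩
        have hL : ∀ q a, ∃ F : Finset R, q ∈ Q → a < K → F ⊆ I a ∧ F.card = s ∧
            Bef (π q) (I a \ F) F := by
          intro q a
          by_cases h : q ∈ Q ∧ a < K
          · obtain ⟨F, h1, h2, h3⟩ := final (hinj q h.1) (I a) s (by rw [(hI a h.2).2]; exact hsT)
            exact ⟨F, fun _ _ => ⟨h1, h2, h3⟩⟩
          · exact ⟨∅, fun h1 h2 => absurd ⟨h1, h2⟩ h⟩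
        choose F hF using hF
        choose L hL using hL
        have hB : ∀ a, ∃ B : Finset R, a < K → B ⊆ I a ∧ B.card = w ∧
            ∀ x ∈ B, ∀ q ∈ Q, x ∉ F q a ∧ x ∉ L q a := by
          intro a
          by_cases ha : a < K
          · have hU : (Q.biUnion fun q => F q a ∪ L q a).card ≤ 2 * s * (k + 2) := by
              calc (Q.biUnion fun q => F q a ∪ L q a).card ≤ ∑ q ∈ Q, (F q a ∪ L q a).card :=
                    card_biUnion_le
                _ ≤ ∑ _q ∈ Q, 2 * s := by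
                    refine Finset.sum_le_sum fun q hq => (card_union_le _ _).trans ?_
                    rw [(hF q a hq ha).2.1, (hL q a hq ha).2.1]
                    omega
                _ = 2 * s * (k + 2) := by rw [sum_const, hm, smul_eq_mul, mul_comm]
            have hC : w ≤ (I a \ (Q.biUnion fun q => F q a ∪ L q a)).card := by
              have := le_card_sdiff (Q.biUnion fun q => F q a ∪ L q a) (I a)
              rw [(hI a ha).2] at this
              omega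
            obtain ⟨B, hB1, hB2⟩ := exists_subset_card_eq hC
            refine ⟨B, fun _ => ⟨hB1.trans sdiff_subset, hB2, fun x hx q hq => ?_⟩⟩
            have h1 := (mem_sdiff.1 (hB1 hx)).2
            rw [mem_biUnion] at h1
            push Not at h1
            have h2 := h1 q hq
            rw [mem_union, not_or] at h2
            exact h2
          · exact ⟨∅, fun h => absurd h ha⟩
        choose B hB using hB
        refine ⟨fun _ => q0, fun _ => B, fun q _ => hq0, fun q _ i hi =>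
          ⟨(hB i hi).1.trans (hI i hi).1, (hB i hi).2.1⟩, ?_, fun q _ q' _ hne => absurd rfl hne⟩
        intro q hq i hi i' hi' hii x hx y hy
        by_contra hcon
        apply hA
        refine ⟨i, i', hii, hi', q, hq, L q i, F q i', (hL q i hq hi).1, (hF q i' hq hi').1,
          (hL q i hq hi).2.1, (hF q i' hq hi').2.1, ?_⟩
        intro y' hy' x' hx'
        have h3 := (hF q i' hq hi').2.2 y' hy' y
          (mem_sdiff.2 ⟨(hB i' hi').1 hy, ((hB i' hi').2.2 y hy q hq).1⟩)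
        have h4 := (hL q i hq hi).2.2 x
          (mem_sdiff.2 ⟨(hB i hi).1 hx, ((hB i hi).2.2 x hx q hq).2⟩) x' hx'
        omega

theorem ord : ORD := by
  intro κ R _ _ Q π S w K hQ hinj hw hK hS
  exact main π w K hw hK Q.card Q S hQ hinj rfl hS

end Pool.Agent.W193.LR
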